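import Mathlib

namespace Pool.Agent.Results.MP_bdbea1_co.Stable

/-- Every cycle of length `m ≥ 4` (an injective cyclic sequence of adjacent vertices) has a chord. -/
def Chordal {V : Type} (H : SimpleGraph V) : Prop :=
  ∀ (m : ℕ) (f : ZMod m → V), 4 ≤ m → Function.Injective f → (∀ i, H.Adj (f i) (f (i + 1))) →
    ∃ i j, j ≠ i + 1 ∧ i ≠ j + 1 ∧ H.Adj (f i) (f j)

def CoChordal {V : Type} (H : SimpleGraph V) : Prop := Chordal Hᶜ

/-- The graph of `s`-jets. -/
def J {V : Type} (s : ℕ) (G : SimpleGraph V) : SimpleGraph (V × Fin (s + 1)) where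
  Adj x y := G.Adj x.1 y.1 ∧ x.2.val + y.2.val ≤ s
  symm := ⟨fun _ _ h => ⟨h.1.symm, by have := h.2; omega⟩⟩
  loopless := ⟨fun _ h => G.irrefl h.1⟩

lemma small {m : ℕ} (hm : 4 ≤ m) (c : ℕ) (h0 : 0 < c) (h3 : c ≤ 3) : (c : ZMod m) ≠ 0 := by
  intro h
  have := Nat.le_of_dvd h0 ((ZMod.natCast_eq_zero_iff c m).1 h)
  omega

lemma stable {V : Type} (G : SimpleGraph V) (h2 : CoChordal (J 2 G)) (s : ℕ) :
    CoChordal (J s G) := by
  classical
  intro m f hm hinj hadj
  by_contra hc
  push Not at hc
  have n1 : (1 : ZMod m) ≠ 0 := by simpa using small hm 1 (by omega) (by omega)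
  have n2 : (2 : ZMod m) ≠ 0 := by simpa using small hm 2 (by omega) (by omega)
  have n3 : (3 : ZMod m) ≠ 0 := by simpa using small hm 3 (by omega) (by omega)
  have hR : ∀ i j, i ≠ j → ((¬ G.Adj (f i).1 (f j).1 ∨ s < (f i).2.val + (f j).2.val) ↔
      (j = i + 1 ∨ i = j + 1)) := by
    intro i j hij
    have e : (J s G)ᶜ.Adj (f i) (f j) ↔
        (¬ G.Adj (f i).1 (f j).1 ∨ s < (f i).2.val + (f j).2.val) := by
      rw [SimpleGraph.compl_adj]
      simp only [J, not_and_or, not_le, ne_eq, hinj.ne hij, not_false_eq_true, true_and]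
    rw [← e]
    constructor
    · intro h
      by_contra hh
      push Not at hh
      exact hc i j hh.1 hh.2 h
    · rintro (rfl | rfl)
      · exact hadj i
      · exact (hadj j).symm
  have : NeZero m := ⟨by omega⟩
  obtain ⟨h, hh⟩ := Finite.exists_max (fun i : ZMod m => (f i).2.val)
  let lam : ZMod m → Fin 3 := fun i =>
    if i = h then 2 else if s < (f h).2.val + (f i).2.val then 1 else 0
  have tri : ∀ i j, i ≠ j → i ≠ h → j ≠ h → ¬ s < (f i).2.val + (f j).2.val := by
    intro i j hij hi hj ht
    have a := (hR i j hij).1 (Or.inr ht)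
    have b := (hR h i hi.symm).1 (Or.inr (by have := hh j; omega))
    have c := (hR h j hj.symm).1 (Or.inr (by have := hh i; omega))
    rcases a with a | a <;> rcases b with b | b <;> rcases c with c | c
    · exact hij (b.trans c.symm)
    · exact n3 (by linear_combination -a - b - c)
    · exact n1 (by linear_combination a - b - c)
    · exact n1 (by linear_combination -a + b - c)
    · exact hij (b.trans c.symm)
    · exact n1 (by linear_combination a - b - c)
    · exact n3 (by linear_combination -a - b - c)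
    · exact n1 (by linear_combination -a - b + c)
  have hT : ∀ i j, i ≠ j →
      (s < (f i).2.val + (f j).2.val ↔ 2 < (lam i).val + (lam j).val) := by
    intro i j hij
    by_cases hi : i = h
    · subst hi
      simp only [lam, if_pos, if_neg hij.symm]
      split_ifs with q <;> simp [q]
    · by_cases hj : j = h
      · subst hj
        simp only [lam, if_pos, if_neg hij]
        rw [add_comm (f i).2.val]
        split_ifs with q <;> simp [q]
      · have := tri i j hij hi hj
        simp only [lam, if_neg hi, if_neg hj, this, false_iff]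
        split_ifs <;> simp
  let g : ZMod m → V × Fin 3 := fun i => ((f i).1, lam i)
  have hR' : ∀ i j, i ≠ j → (¬ (J 2 G).Adj (g i) (g j) ↔ (j = i + 1 ∨ i = j + 1)) := by
    intro i j hij
    rw [← hR i j hij, hT i j hij]
    simp only [J, g, not_and_or, not_le]
  have step : ∀ i, g i ≠ g (i + 1) := by
    intro i he
    have a := (hR' (i + 1) (i + 2) (fun q => n1 (by linear_combination -q))).2
      (Or.inl (by ring))
    rw [← he] at a
    rcases (hR' i (i + 2) (fun q => n2 (by linear_combination -q))).1 a with q | q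
    · exact n1 (by linear_combination q)
    · exact n3 (by linear_combination -q)
  have ginj : Function.Injective g := by
    intro i j he
    by_contra hij
    rcases (hR' i j hij).1 (by rw [he]; exact (J 2 G).irrefl) with q | q
    · exact step i (q ▸ he)
    · exact step j (q ▸ he.symm)
  obtain ⟨i, j, a, b, c⟩ := h2 m g hm ginj (fun i => by
    rw [SimpleGraph.compl_adj]
    exact ⟨step i, (hR' i (i + 1) (fun q => n1 (by linear_combination -q))).2 (Or.inl rfl)⟩)
  rw [SimpleGraph.compl_adj] at c
  rcases (hR' i j (fun q => c.1 (by rw [q]))).1 c.2 with q | q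
  · exact a q
  · exact b q

theorem result :
    (∀ (V : Type) (G : SimpleGraph V), CoChordal (J 2 G) → ∀ s, CoChordal (J s G)) ∧
    ∀ n : ℕ, 2 ≤ n → ¬ ∃ (m : ℕ) (G : SimpleGraph (Fin m)), CoChordal G ∧ G.Connected ∧
      G.diam = 2 ∧ (∀ i, 1 ≤ i → i ≤ n → CoChordal (J i G)) ∧ ¬ CoChordal (J (n + 1) G) := by
  refine ⟨fun V G h s => stable G h s, ?_⟩
  rintro n hn ⟨m, G, _, _, _, h, h'⟩
  exact h' (stable G (h 2 (by omega) hn) _)

end Pool.Agent.Results.MP_bdbea1_co.Stable
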